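import Mathlib
import Pool.Agent.MP_1e211b_nt.H73.Small

set_option autoImplicit false

/-!
No archimedean cancellation in a fixed combination of numbers `2 ^ x * 3 ^ y` whose exponents
drift apart.
-/

namespace Pool.Agent.MP_1e211b_nt.H92

open Real Filter Submodule Pool.Agent.MP_60c1b5_an.H73 Pool.Agent.MP_1e211b_nt.H73

theorem isB_one {ι V : Type} [Fintype ι] [DecidableEq ι] [AddCommGroup V] [Module ℚ V] (v : ι → V)
    (c : ι → ℚ) (hc : ∑ a, c a • v a = 0)
    (hk : ∀ d : ι → ℚ, ∑ a, d a • v a = 0 → ∃ r : ℚ, d = r • c) (b : ι) (hb : c b ≠ 0) :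
    IsB v (Finset.univ.image fun _ : Unit => b)ᶜ := by
  refine isB_compl v (fun a => if a = b then Fintype.card ι else (Fintype.equivFin ι a : ℕ)) ?_
    (fun _ => c) _ (Function.injective_of_subsingleton _) (fun _ => ⟨hc, hb, fun a _ => ?_⟩)
    fun d hd => ?_
  · intro a a' e
    have b1 := (Fintype.equivFin ι a).2
    have b2 := (Fintype.equivFin ι a').2
    simp only at e
    split_ifs at e with h1 h2 h2
    · rw [h1, h2]
    · omega
    · omega
    · exact (Fintype.equivFin ι).injective (Fin.ext e)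
  · have b1 := (Fintype.equivFin ι a).2
    simp only [if_true]
    split_ifs <;> omega
  · obtain ⟨r, rfl⟩ := hk d hd
    exact smul_mem _ _ (subset_span ⟨(), rfl⟩)

theorem ev_exp (U : Ultrafilter ℕ) (hU : (U : Filter ℕ) ≤ atTop) {ε : ℝ} (hε : 0 < ε) (C : ℝ) :
    ∀ᶠ n : ℕ in (U : Filter ℕ), C < exp (ε * n) :=
  hU ((tendsto_exp_atTop.comp
    (tendsto_natCast_atTop_atTop.const_mul_atTop hε)).eventually_gt_atTop C)

theorem nocancel (U : Ultrafilter ℕ) (hU : (U : Filter ℕ) ≤ atTop) {A : Type} [Fintype A]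
    (x y : ℕ → A → ℤ) (K : ℕ)
    (hx : ∀ᶠ n : ℕ in (U : Filter ℕ), ∀ a, |x n a| ≤ K * n ∧ |y n a| ≤ K * n)
    (hsep : ∀ a a', a ≠ a' → ∀ C : ℤ, ∀ᶠ n in (U : Filter ℕ),
      C < |x n a - x n a'| + |y n a - y n a'|)
    (c : A → ℚ) (b : A) (hb : c b ≠ 0) (ε : ℝ) (hε : 0 < ε) :
    ∀ᶠ n : ℕ in (U : Filter ℕ), (2 : ℝ) ^ x n b * 3 ^ y n b ≤
      exp (ε * n) * |∑ a, (c a : ℝ) * (2 ^ x n a * 3 ^ y n a)| := by
  classical
  obtain ⟨d, hd⟩ := IsLocalization.exist_integer_multiples_of_finite (nonZeroDivisors ℤ) c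
  choose z hz using hd
  have hd0 : ((d : ℤ) : ℚ) ≠ 0 := by exact_mod_cast nonZeroDivisors.coe_ne_zero d
  have hz' : ∀ a, (z a : ℚ) = (d : ℤ) * c a := fun a => by simpa using hz a
  obtain ⟨e2, he2⟩ : ∃ e2 : ℕ → A → ℕ, ∀ n a, e2 n a = (x n a + K * n).toNat := ⟨_, fun _ _ => rfl⟩
  obtain ⟨e3, he3⟩ : ∃ e3 : ℕ → A → ℕ, ∀ n a, e3 n a = (y n a + K * n).toNat := ⟨_, fun _ _ => rfl⟩
  have hE : ∀ᶠ n : ℕ in (U : Filter ℕ), ∀ a, (e2 n a : ℤ) = x n a + (K * n : ℕ) ∧
      (e3 n a : ℤ) = y n a + (K * n : ℕ) ∧ e2 n a ≤ 2 * (K * n) ∧ e3 n a ≤ 2 * (K * n) := by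
    filter_upwards [hx] with n hn a
    have b1 := abs_le.1 (hn a).1
    have b2 := abs_le.1 (hn a).2
    rw [he2, he3]
    push_cast
    rw [← Nat.cast_mul] at b1 b2 ⊢
    omega
  have hnv : ∀ g : A → ℚ, (∀ᶠ n in (U : Filter ℕ), ∑ a, g a * (2 ^ e2 n a * 3 ^ e3 n a) = 0) →
      ∀ a, g a = 0 := by
    intro g hg
    refine nv2 U _ A rfl (fun n a => e2 n a) (fun n a => e3 n a) (fun a a' h C => ?_) g
      (by simpa only [zpow_natCast] using hg)
    filter_upwards [hsep a a' h C, hE] with n h1 h2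
    rwa [(h2 a).1, (h2 a').1, (h2 a).2.1, (h2 a').2.1, add_sub_add_right_eq_sub,
      add_sub_add_right_eq_sub]
  obtain ⟨X, hX⟩ : ∃ X : ℕ → ℤ, ∀ n, X n = ∑ a, z a * (2 ^ e2 n a * 3 ^ e3 n a) :=
    ⟨_, fun _ => rfl⟩
  have hzb : (z b : ℚ) ≠ 0 := by rw [hz']; exact mul_ne_zero hd0 hb
  have hX0 : ∀ᶠ n in (U : Filter ℕ), X n ≠ 0 := by
    refine Ultrafilter.eventually_not.2 fun h0 => hzb (hnv (fun a => z a) ?_ b)
    filter_upwards [h0] with n hn
    rw [hX] at hn
    exact_mod_cast hn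
  set v := cls U fun n (o : Option A) => o.elim (X n) (fun _ => 1) *
    (2 ^ o.elim 0 (e2 n) * 3 ^ o.elim 0 (e3 n)) with hv
  have hker : ∀ g : Option A → ℚ, ∑ o, g o • v o = 0 ↔ ∀ᶠ n in (U : Filter ℕ),
      ∑ a, (g none * z a + g (some a)) * (2 ^ e2 n a * 3 ^ e3 n a) = 0 := by
    intro g
    simp only [hv, cls]
    rw [sum_mk, ← map_zero (nullSeq U).mkQ, mk_eq_iff]
    refine eventually_congr (Eventually.of_forall fun n => ?_)
    simp only [Fintype.sum_option, Option.elim, hX, add_mul, Finset.sum_add_distrib, Pi.zero_apply]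
    push_cast
    simp only [pow_zero, mul_one, one_mul, Finset.mul_sum, mul_assoc]
  have hB : ∀ o : Option A, o.elim (-1 : ℚ) (fun a => z a) ≠ 0 →
      IsB v (Finset.univ.image fun _ : Unit => o)ᶜ := by
    refine isB_one v (fun o => o.elim (-1 : ℚ) fun a => z a) ((hker _).2 (by simp)) fun g hg =>
      ⟨-g none, funext fun o => ?_⟩
    cases o with
    | none => simp
    | some a =>
      have := hnv _ ((hker g).1 hg) a
      simp only [Pi.smul_apply, Option.elim, smul_eq_mul]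
      linarith
  have key := gl4 U id hU (12 * K + 1) (fun n (o : Option A) => o.elim (X n) fun _ => 1)
    (fun n o => o.elim |(X n : ℝ)| fun _ => 1) (fun n o => o.elim 0 (e2 n))
    (fun n o => o.elim 0 (e3 n)) (by
      filter_upwards [hE, hX0, ev_exp U hU one_pos (∑ a, |(z a : ℝ)|)] with n h1 h2 h3 o
      cases o with
      | none =>
        have b0 : (1 : ℝ) ≤ |(X n : ℝ)| := by exact_mod_cast Int.one_le_abs h2
        refine ⟨le_rfl, b0, ?_, Nat.zero_le _, Nat.zero_le _⟩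
        have b1 : |(X n : ℝ)| ≤ (∑ a, |(z a : ℝ)|) * 6 ^ (2 * (K * n)) := by
          rw [hX, Finset.sum_mul]
          push_cast
          refine (Finset.abs_sum_le_sum_abs _ _).trans (Finset.sum_le_sum fun a _ => ?_)
          rw [abs_mul, abs_of_pos (by positivity : (0 : ℝ) < 2 ^ e2 n a * 3 ^ e3 n a),
            show (6 : ℝ) = 2 * 3 by norm_num, mul_pow]
          have c1 := (h1 a).2.2.1
          have c2 := (h1 a).2.2.2
          gcongr <;> norm_num
        have b2 := pow_le_exp 6 (2 * (K * n))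
        refine b1.trans ((mul_le_mul h3.le b2 (by positivity) (by positivity)).trans_eq ?_)
        rw [← exp_add]
        congr 1
        simp only [id]
        push_cast
        ring
      | some a =>
        have c1 := (h1 a).2.2.1
        have c2 := (h1 a).2.2.2
        refine ⟨by simp, le_rfl, one_le_exp (by positivity), ?_, ?_⟩ <;>
          simp only [Option.elim, id] <;> nlinarith) (ε / 2) (by positivity)
    (fun _ : Unit => some b) (fun _ => none) (fun _ => none) (Function.injective_of_subsingleton _)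
    (Function.injective_of_subsingleton _) (Function.injective_of_subsingleton _)
    (hB _ hzb) (hB _ (by simp)) (hB _ (by simp))
  filter_upwards [key, hE, ev_exp U hU (half_pos hε) |((d : ℤ) : ℝ)|] with n h1 h2 h3
  simp only [Finset.univ_unique, Finset.prod_singleton, Option.elim, Fintype.prod_option,
    Finset.prod_const_one, pow_zero, mul_one, one_mul, id] at h1
  have b0 : ∀ a, (2 : ℝ) ^ e2 n a * 3 ^ e3 n a =
      (2 ^ (K * n) * 3 ^ (K * n)) * (2 ^ x n a * 3 ^ y n a) := by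
    intro a
    rw [← zpow_natCast _ (e2 n a), ← zpow_natCast _ (e3 n a), (h2 a).1, (h2 a).2.1,
      zpow_add₀ (by norm_num), zpow_add₀ (by norm_num), zpow_natCast, zpow_natCast]
    ring
  have b1 : (X n : ℝ) = (2 ^ (K * n) * 3 ^ (K * n)) *
      ((d : ℤ) * ∑ a, (c a : ℝ) * (2 ^ x n a * 3 ^ y n a)) := by
    rw [hX, Finset.mul_sum, Finset.mul_sum]
    push_cast
    refine Finset.sum_congr rfl fun a _ => ?_
    have : (z a : ℝ) = (d : ℤ) * (c a : ℝ) := by exact_mod_cast hz' a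
    rw [b0, this]
    ring
  rw [b0, b1, abs_mul, abs_of_pos (by positivity : (0 : ℝ) < 2 ^ (K * n) * 3 ^ (K * n)),
    mul_assoc (_ * _) |_|, mul_lt_mul_iff_right₀ (by positivity), abs_mul] at h1
  refine h1.le.trans ?_
  rw [show ε * n = ε / 2 * n + ε / 2 * n by ring, exp_add, mul_right_comm]
  gcongr

end Pool.Agent.MP_1e211b_nt.H92
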