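import Mathlib
import Pool.Agent.MP_1e211b_nt.H92.NoCancel

set_option autoImplicit false

/-!
More integers than atoms cannot all be close to far apart multiples `2 ^ p * 3 ^ q * M` of one
real number.
-/

namespace Pool.Agent.MP_1e211b_nt.H92

open Real Filter MvPolynomial Finsupp Pool.Agent.MP_60c1b5_an.H73 Pool.Agent.MP_1e211b_nt.H73

theorem sum_sub {ι M : Type} [Fintype ι] [AddCommMonoid M] (B : Finset ι) (F : ι → M)
    (h : ∀ i ∉ B, F i = 0) : ∑ s : B, F s = ∑ i, F i :=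
  (Finset.sum_coe_sort B F).trans (Finset.sum_subset (Finset.subset_univ _) fun i _ hi => h i hi)

theorem exists_circuit {σ ι : Type} [Fintype ι] {U : Ultrafilter ℕ} {x y : ℕ → σ → ℤ}
    {z : ℕ → ι → ℤ} (Y : ι → MvPolynomial σ ℚ) (hY : Y ∈ Rel U x y z) (h0 : Y ≠ 0) :
    ∃ (B : Finset ι) (b : B), (∀ Y' ∈ Rel U x y fun n (s : B) => z n s, Y' b = 0 → Y' = 0) ∧
      ∃ Y0 ∈ Rel U x y fun n (s : B) => z n s, Y0 b ≠ 0 := by
  classical
  obtain ⟨B, hB, hmin⟩ := (Finset.univ.filter fun B : Finset ι =>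
    ∃ Y ∈ Rel U x y z, Y ≠ 0 ∧ ∀ i ∉ B, Y i = 0).exists_min_image Finset.card
    ⟨Finset.univ, by simpa using ⟨Y, hY, h0⟩⟩
  obtain ⟨Y0, a1, a2, a3⟩ := (Finset.mem_filter.1 hB).2
  obtain ⟨b, hb⟩ := Function.ne_iff.1 a2
  have hbB : b ∈ B := by
    by_contra hc
    exact hb (a3 b hc)
  refine ⟨B, ⟨b, hbB⟩, fun Y' h1 h2 => ?_, fun s => Y0 s, ?_, hb⟩
  · by_contra hne
    refine (hmin (B.erase b) (Finset.mem_filter.2 ⟨Finset.mem_univ _,
      fun i => if h : i ∈ B then Y' ⟨i, h⟩ else 0, ?_, fun hc => hne (funext fun s => ?_),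
      fun i hi => ?_⟩)).not_gt (Finset.card_erase_lt_of_mem hbB)
    · filter_upwards [h1] with n hn
      rw [← sum_sub B _ fun i hi => by rw [dif_neg hi, map_zero, zero_mul], ← hn]
      exact Finset.sum_congr rfl fun s _ => by rw [dif_pos s.2]
    · simpa using congrFun hc s
    · beta_reduce
      split_ifs with h
      · obtain rfl : i = b := by simpa [h] using hi
        exact h2
      · rfl
  · filter_upwards [a1] with n hn
    rw [← hn]
    exact sum_sub B (fun i => ev (x n) (y n) (Y0 i) * z n i) fun i hi => by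
      rw [a3 i hi, map_zero, zero_mul]

theorem weight_bound {σ : Type} [Fintype σ] (w : σ → ℤ) (k : ℤ) (h : ∀ i, |w i| ≤ k)
    (a : σ →₀ ℕ) : |weight w a| ≤ (∑ i, a i : ℕ) * k := by
  rw [weight_eq_sum, Nat.cast_sum, Finset.sum_mul]
  refine (Finset.abs_sum_le_sum_abs _ _).trans (Finset.sum_le_sum fun i _ => ?_)
  rw [nsmul_eq_mul, abs_mul, Nat.abs_cast]
  exact mul_le_mul_of_nonneg_left (h i) (by positivity)

theorem dip {U : Ultrafilter ℕ} (hU : (U : Filter ℕ) ≤ atTop) {κ J ι : Type} [Fintype κ]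
    [Fintype J] [Fintype ι] (hcard : Fintype.card κ < Fintype.card ι) (u : ℕ → κ → ℤ)
    (lam : ℕ → κ → ℕ)
    (hu : ∀ᶠ n in (U : Filter ℕ), (∀ t, |u n t| ≤ 2 ^ lam n t) ∧ ∑ t, lam n t ≤ 2 * n)
    (z : ℕ → ι → ℤ) (K' : ℕ) (hz : ∀ᶠ n in (U : Filter ℕ), ∀ i, |z n i| ≤ 2 ^ (K' * n))
    (τ : ι → J → κ) (c : J → ℚ) (ξ η : ι → J → ℕ → ℤ) (hξ : ∀ i j, ξ i j ∈ LinB U)
    (hη : ∀ i j, η i j ∈ LinB U)
    (h : ∀ᶠ n in (U : Filter ℕ), ∀ i, (∀ j, ξ i j n + η i j n ≤ 0) ∧
      (z n i : ℚ) = ∑ j, c j * (2 ^ ξ i j n * 3 ^ η i j n) * u n (τ i j))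
    (p q : ℕ → ι → ℤ) (K : ℕ)
    (hp : ∀ᶠ n : ℕ in (U : Filter ℕ), ∀ i, |p n i| ≤ K * n ∧ |q n i| ≤ K * n)
    (hsep : ∀ᶠ n : ℕ in (U : Filter ℕ), ∀ i i', i ≠ i' →
      ((25 * Fintype.card ι + 3) * n : ℕ) ≤ |p n i - p n i'|)
    (ε : ℝ) (hε : 0 < ε) (M : ℕ → ℝ)
    (ha : ∀ᶠ n : ℕ in (U : Filter ℕ), M n ≠ 0 ∧ ∀ i, |z n i - 2 ^ p n i * 3 ^ q n i * M n| ≤
      exp (-(ε * n)) * (2 ^ p n i * 3 ^ q n i * |M n|)) : False := by
  classical
  have s1 : ∀ᶠ n in (U : Filter ℕ), ∀ i, |z n i| ≤ 2 ^ (25 * n) := eventually_all.2 fun i =>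
    small hU u lam hu (fun n => z n i) K' (hz.mono fun n hn => hn i) (τ i) c (ξ i) (η i) (hξ i)
      (hη i) (h.mono fun n hn => hn i)
  obtain ⟨σ, _, x, y, K0, α, β, C, C', hs, hx, hC⟩ := lattice2 U (J := ι × J)
    (fun a => ξ a.1 a.2) (fun a => η a.1 a.2) (fun a => hξ _ _) fun a => hη _ _
  have h1 : ∀ t, Dg U x y u (fun n => u n t) fun _ => 0 := fun t =>
    ⟨1, one_ne_zero, Pi.single t 1, Eventually.of_forall fun n => ⟨by
      rw [Finset.sum_eq_single t (fun s _ h => by simp [h]) (by simp)]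
      simp, fun s => by
      by_cases e : s = t
      · simp [e]
      · simp [e, dg]⟩⟩
  have h2 : ∀ i, ∃ g : MvPolynomial σ ℚ, g ≠ 0 ∧ ∃ r : κ → MvPolynomial σ ℚ,
      ∀ᶠ n in (U : Filter ℕ), ev (x n) (y n) g * z n i = ∑ s, ev (x n) (y n) (r s) * u n s := by
    intro i
    obtain ⟨g, hg, r, hr⟩ := Dg.sum Finset.univ fun j => (h1 (τ i j)).mon (k' := fun n => n)
      (ξ := ξ i j) (η := η i j) (c j) (α (i, j)) (β (i, j)) (C (i, j)) (C' (i, j)) (by
        filter_upwards [h, hC, hU (eventually_ge_atTop (C (i, j) + C' (i, j)).natAbs)]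
          with n b1 b2 b3
        have b4 : (C (i, j) + C' (i, j)).natAbs ≤ n := b3
        have b5 := (b1 i).1 j
        exact ⟨b2 (i, j), by omega⟩)
    refine ⟨g, hg, r, ?_⟩
    filter_upwards [hr, h] with n b1 b2
    rw [(b2 i).2]
    exact b1.1
  choose g hg r hr using h2
  have h3 : ¬ LinearIndependent (MvPolynomial σ ℚ) r := fun hl => by
    have := hl.fintype_card_le_finrank
    rw [Module.finrank_fintype_fun_eq_card] at this
    omega
  obtain ⟨w, hw, i0, hi0⟩ := Fintype.not_linearIndependent_iff.1 h3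
  obtain ⟨B, b, hi, Y0, h0, h0'⟩ := exists_circuit (U := U) (x := x) (y := y) (z := z)
    (fun i => w i * g i) (by
      filter_upwards [eventually_all.2 hr] with n hn
      have e : ∀ s, ∑ i, ev (x n) (y n) (w i) * ev (x n) (y n) (r i s) = 0 := by
        intro s
        have := congrArg (ev (x n) (y n)) (congrFun hw s)
        simpa using this
      simp only [map_mul, mul_assoc, hn, Finset.mul_sum]
      rw [Finset.sum_comm]
      simp only [← mul_assoc, ← Finset.sum_mul, e, zero_mul, Finset.sum_const_zero])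
    (Function.ne_iff.2 ⟨i0, mul_ne_zero hi0 (hg i0)⟩)
  obtain ⟨Y, hY, hYb, m, m', H⟩ := gain U hU x y hs (K0 + 50) (hx.mono fun n hn i =>
      ⟨(hn i).1.trans (by gcongr; omega), (hn i).2.trans (by gcongr; omega)⟩)
    (fun n (s : B) => z n s) (fun n _ => 2 ^ (25 * n)) (by
      filter_upwards [s1] with n hn t
      refine ⟨by exact_mod_cast hn t, one_le_pow₀ (by norm_num), ?_⟩
      refine (pow_le_exp 2 (25 * n)).trans (exp_le_exp.2 ?_)
      have : (0 : ℝ) ≤ K0 * n := by positivity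
      push_cast
      linarith) b hi Y0 h0 h0'
  have hW : ∀ᶠ n : ℕ in (U : Filter ℕ), ∀ t, ∀ a ∈ (Y t).support, m n ≤ weight (x n) a ∧
      weight (x n) a ≤ m n + ((25 * Fintype.card ι + 2) * n : ℕ) := by
    filter_upwards [H] with n hn t a ha
    obtain ⟨b1, b2, b3⟩ := hn t a ha
    obtain ⟨i, hi⟩ := Int.le.dest b1
    obtain ⟨j, hj⟩ := Int.le.dest b2
    rw [← hi, ← hj, add_sub_cancel_left, add_sub_cancel_left, zpow_natCast, zpow_natCast,
      Finset.prod_const, Finset.card_univ, ← pow_mul] at b3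
    have b4 : (2 : ℝ) ^ i ≤ 2 ^ (2 * n + 25 * n * Fintype.card ι) := by
      rw [pow_add]
      refine le_trans ?_ (b3.trans (mul_le_mul (by simpa using exp_le_pow le_rfl n)
        (pow_le_pow_right₀ (by norm_num) (Nat.mul_le_mul_left _ (Fintype.card_subtype_le _)))
        (by positivity) (by positivity)))
      exact (le_mul_of_one_le_right (by positivity) (one_le_pow₀ (by norm_num))).trans
        (le_mul_of_one_le_left (by positivity) (one_le_pow₀ (by norm_num)))
    have b5 := (pow_le_pow_iff_right₀ (by norm_num)).1 b4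
    refine ⟨b1, ?_⟩
    rw [← hi]
    have : i ≤ (25 * Fintype.card ι + 2) * n := b5.trans_eq (by ring)
    omega
  obtain ⟨D, hD⟩ := Finite.exists_le fun a : (Σ t : B, (Y t).support) => ∑ i, a.2.1 i
  have key := eventually_all.2 fun a0 : (Σ t : B, (Y t).support) => nocancel U hU
    (fun n (a : Σ t : B, (Y t).support) => weight (x n) a.2.1 + p n a.1)
    (fun n a => weight (y n) a.2.1 + q n a.1) (D * K0 + K) (by
      filter_upwards [hx, hp] with n b1 b2 a
      have b3 : ((∑ i, a.2.1 i : ℕ) : ℤ) * (K0 * n) ≤ D * (K0 * n) := by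
        gcongr
        exact hD a
      have b4 := weight_bound _ _ (fun i => (b1 i).1) a.2.1
      have b5 := weight_bound _ _ (fun i => (b1 i).2) a.2.1
      have b6 := b2 a.1
      constructor <;> refine (abs_add_le _ _).trans ?_ <;> push_cast <;> linarith) (by
      rintro ⟨t, a⟩ ⟨t', a'⟩ hne C
      by_cases e : t = t'
      · subst e
        filter_upwards [hs a.1 a'.1 (fun e => hne (by rw [Subtype.ext e])) C] with n hn
        simpa only [add_sub_add_right_eq_sub] using hn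
      · filter_upwards [hW, hsep, hU (eventually_gt_atTop C.natAbs)] with n b1 b2 b3
        have b4 : C.natAbs < n := b3
        have b5 := b1 t a.1 a.2
        have b6 := b1 t' a'.1 a'.2
        have b7 := b2 t t' fun e' => e (Subtype.ext e')
        refine lt_of_lt_of_le ?_ (le_add_of_nonneg_right (abs_nonneg _))
        rw [show (25 * Fintype.card ι + 3) * n = (25 * Fintype.card ι + 2) * n + n by ring] at b7
        generalize (25 * Fintype.card ι + 2) * n = W at *
        rcases abs_cases (p n t - p n t') with c1 | c1 <;>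
          rcases abs_cases (weight (x n) a.1 + p n t - (weight (x n) a'.1 + p n t')) with c2 | c2 <;>
          omega)
    (fun a => coeff a.2.1 (Y a.1)) a0 (MvPolynomial.mem_support_iff.1 a0.2.2) (ε / 2)
    (half_pos hε)
  obtain ⟨n, b1, b2, b3, b4⟩ := (key.and (ha.and ((show ∀ᶠ n in (U : Filter ℕ), _ from hY).and
    (ev_exp U hU (half_pos hε)
      (∑ a : (Σ t : B, (Y t).support), |((coeff a.2.1 (Y a.1) : ℚ) : ℝ)|))))).exists
  set G := ∑ a : (Σ t : B, (Y t).support), ((coeff a.2.1 (Y a.1) : ℚ) : ℝ) *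
    (2 ^ (weight (x n) a.2.1 + p n a.1) * 3 ^ (weight (y n) a.2.1 + q n a.1)) with hG
  have c0 : 0 < |G| := by
    obtain ⟨a, ha⟩ := support_nonempty.2 hYb
    exact (pos_iff_pos_of_mul_pos (lt_of_lt_of_le (by positivity) (b1 ⟨b, a, ha⟩))).1 (exp_pos _)
  have c1 : ∑ a : (Σ t : B, (Y t).support), ((coeff a.2.1 (Y a.1) : ℚ) : ℝ) *
      (2 ^ weight (x n) a.2.1 * 3 ^ weight (y n) a.2.1) * z n a.1 = 0 := by
    have := congrArg (Rat.cast : ℚ → ℝ) b3
    simp only [ev_eq, Finset.sum_mul] at this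
    push_cast at this
    rw [← this, Fintype.sum_sigma]
    exact Finset.sum_congr rfl fun t _ => Finset.sum_coe_sort (Y t).support fun a =>
      ((coeff a (Y t) : ℚ) : ℝ) * (2 ^ weight (x n) a * 3 ^ weight (y n) a) * z n t
  have c2 : |G| * |M n| ≤ (∑ a : (Σ t : B, (Y t).support), |((coeff a.2.1 (Y a.1) : ℚ) : ℝ)|) *
      (exp (-(ε * n)) * (exp (ε / 2 * n) * |G|) * |M n|) := by
    rw [← abs_mul, ← abs_neg, ← zero_sub, ← c1, Finset.sum_mul _ _ (_ * |M n|)]
    conv_lhs => rw [hG, Finset.sum_mul, ← Finset.sum_sub_distrib]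
    refine (Finset.abs_sum_le_sum_abs _ _).trans (Finset.sum_le_sum fun a _ => ?_)
    have d1 := b1 a
    have d2 := b2.2 a.1
    rw [zpow_add₀ (by norm_num), zpow_add₀ (by norm_num)] at d1 ⊢
    rw [show ∀ c s t s' t' z M : ℝ, c * (s * t) * z - c * (s * s' * (t * t')) * M =
      c * (s * t * (z - s' * t' * M)) by intros; ring, abs_mul, abs_mul,
      abs_of_pos (by positivity : (0 : ℝ) < 2 ^ weight (x n) a.2.1 * 3 ^ weight (y n) a.2.1)]
    refine mul_le_mul_of_nonneg_left ((mul_le_mul_of_nonneg_left d2 (by positivity)).trans ?_)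
      (abs_nonneg _)
    refine le_trans (le_of_eq (by ring)) (mul_le_mul_of_nonneg_right
      (mul_le_mul_of_nonneg_left d1 (exp_pos _).le) (abs_nonneg _))
  have c3 : 0 < |G| * |M n| := mul_pos c0 (abs_pos.2 b2.1)
  have c4 : exp (ε / 2 * n) * (exp (-(ε * n)) * (exp (ε / 2 * n) * |G|) * |M n|) =
      |G| * |M n| := by
    have : exp (ε / 2 * n) * exp (-(ε * n)) * exp (ε / 2 * n) = 1 := by
      rw [← exp_add, ← exp_add, ← exp_zero]
      congr 1
      ring
    linear_combination (|G| * |M n|) * this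
  refine (c2.trans_lt ?_).false
  rw [← c4]
  exact mul_lt_mul_of_pos_right b4 (by have := abs_pos.2 b2.1; positivity)

end Pool.Agent.MP_1e211b_nt.H92
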