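import Mathlib
import Pool.Agent.MP_60c1b5_an.H73.LinCx

set_option autoImplicit false

/-!
A binary word with few factors of length `m` is cut, on every initial segment of length `K m`,
into boundedly many powers of words from a dictionary whose size does not depend on `K`.
-/

namespace Pool.Agent.MP_1e211b_nt.H92

open Pool.Agent.MP_60c1b5_an.H73

/-- equal blocks -/
def E (d : ℕ → ℕ) (i j L : ℕ) : Prop := ∀ t < L, d (i + t) = d (j + t)

/-- the block of length `k` at `i` has two continuations -/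
def Spec (d : ℕ → ℕ) (k i : ℕ) : Prop := ∃ j, E d j i k ∧ d (j + k) ≠ d (i + k)

/-- not eventually periodic -/
def Aper (d : ℕ → ℕ) : Prop := ∀ N p, 0 < p → ¬ ∀ n, N ≤ n → d (n + p) = d n

/-- the factors of length `k` -/
def Fac (d : ℕ → ℕ) (k : ℕ) : Set (List ℕ) := {w | ∃ i, w = blk d i k}

/-- the first `t` letters are a product of `N` powers of dictionary words -/
def Adm (d : ℕ → ℕ) {κ : Type} (a π : κ → ℕ) : ℕ → ℕ → Prop
  | 0, t => t = 0
  | N + 1, t => ∃ s x e, Adm d a π N s ∧ t = s + e * π x ∧ ∀ e' < e, E d (s + e' * π x) (a x) (π x)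

variable {d : ℕ → ℕ} {k : ℕ}

theorem E.symm {i j L : ℕ} (h : E d i j L) : E d j i L := fun t ht => (h t ht).symm

theorem E.trans {i j l L : ℕ} (h : E d i j L) (h' : E d j l L) : E d i l L :=
  fun t ht => (h t ht).trans (h' t ht)

theorem E.shift {i j L : ℕ} (h : E d i j L) (r L' : ℕ) (hr : r + L' ≤ L) :
    E d (i + r) (j + r) L' := fun t ht => by
  rw [add_assoc, add_assoc]
  exact h _ (by omega)

theorem E.succ {i j L : ℕ} (h : E d i j L) (h' : d (i + L) = d (j + L)) : E d i j (L + 1) := by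
  intro t ht
  rcases Nat.lt_succ_iff_lt_or_eq.1 ht with h1 | rfl
  · exact h t h1
  · exact h'

theorem Spec.congr {i j : ℕ} (h : Spec d k i) (e : E d i j k) : Spec d k j := by
  obtain ⟨l, h1, h2⟩ := h
  by_cases h3 : d (l + k) = d (j + k)
  · exact ⟨i, e, h3 ▸ h2.symm⟩
  · exact ⟨l, h1.trans e, h3⟩

theorem E.step {i j r : ℕ} (h : E d i j (k + r)) (hn : ¬ Spec d k (j + r)) :
    E d i j (k + (r + 1)) := by
  refine E.succ h ?_
  by_contra hc
  refine hn ⟨i + r, h.shift r k (by omega), ?_⟩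
  rwa [add_assoc, add_assoc, add_comm r k]

theorem follow {i j L : ℕ} (h : E d i j (k + 1)) (hn : ∀ r, 0 < r → r < L → ¬ Spec d k (j + r)) :
    ∀ r, r + 1 ≤ L → E d i j (k + (r + 1)) := by
  intro r
  induction r with
  | zero => exact fun _ => h
  | succ r ih => exact fun hr => (ih (by omega)).step (hn _ (by omega) (by omega))

theorem fac_image {m : ℕ} (h : k ≤ m) : Fac d k ⊆ List.take k '' Fac d m := by
  rintro _ ⟨i, rfl⟩
  refine ⟨_, ⟨i, rfl⟩, ?_⟩
  rw [blk, ← List.map_take, List.take_range'_of_length_ge h, blk]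

theorem exists_rep {P : ℕ} (hf : (Fac d k).Finite) (hP : (Fac d k).ncard ≤ P) {A : Type}
    (s : Finset A) (hs : P < s.card) (f : A → ℕ) :
    ∃ x ∈ s, ∃ y ∈ s, x ≠ y ∧ E d (f x) (f y) k := by
  obtain ⟨x, hx, y, hy, hne, e⟩ := Finset.exists_ne_map_eq_of_card_lt_of_maps_to
    (s := s) (t := hf.toFinset) (by rw [← Set.ncard_eq_toFinset_card _ hf]; omega)
    (f := fun x => blk d (f x) k) fun x _ => by simpa using ⟨f x, rfl⟩
  exact ⟨x, hx, y, hy, hne, (blk_eq_iff _ _ _ _).1 e⟩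

theorem exists_spec (hap : Aper d) {P : ℕ} (hf : (Fac d k).Finite) (hP : (Fac d k).ncard ≤ P)
    (i : ℕ) : ∃ r ≤ P, Spec d k (i + r) := by
  by_contra hc
  push Not at hc
  obtain ⟨x, y, hxy, hy, e⟩ : ∃ x y, x < y ∧ y ≤ P ∧ E d (i + y) (i + x) k := by
    obtain ⟨x, hx, y, hy, hne, e⟩ := exists_rep hf hP (Finset.range (P + 1)) (by simp) (i + ·)
    rw [Finset.mem_range] at hx hy
    rcases lt_or_gt_of_ne hne with h | h
    · exact ⟨x, y, h, by omega, e.symm⟩
    · exact ⟨y, x, h, by omega, e⟩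
  have key : ∀ r, ¬ Spec d k (i + x + r) ∧ E d (i + y) (i + x) (k + r) := by
    intro r
    induction r using Nat.strong_induction_on with
    | _ r ih =>
      constructor
      · by_cases h : x + r ≤ P
        · rw [add_assoc]
          exact hc _ h
        · have h1 := ih (r - (y - x)) (by omega)
          intro hs
          refine h1.1 (hs.congr ?_)
          rw [show i + x + r = i + y + (r - (y - x)) by omega]
          exact h1.2.shift _ k (by omega)
      · cases r with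
        | zero => exact e
        | succ r => exact (ih r (by omega)).2.step (ih r (by omega)).1
  refine hap (i + x) (y - x) (by omega) fun n hn => ?_
  have := (key (n - (i + x) + 1)).2 (n - (i + x)) (by omega)
  rwa [show i + y + (n - (i + x)) = n + (y - x) by omega,
    show i + x + (n - (i + x)) = n by omega] at this

theorem card_spec (hf : (Fac d (k + 1)).Finite) :
    (Fac d k).ncard + {w | ∃ i, w = blk d i k ∧ Spec d k i}.ncard ≤ (Fac d (k + 1)).ncard := by
  have h1 : ∀ w, ∃ i j, (w ∈ Fac d k → w = blk d i k) ∧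
      ((∃ i, w = blk d i k ∧ Spec d k i) → w = blk d j k ∧ d (j + k) ≠ d (i + k)) := by
    intro w
    by_cases h : ∃ i, w = blk d i k ∧ Spec d k i
    · obtain ⟨i, e, j, a1, a2⟩ := h
      exact ⟨i, j, fun _ => e, fun _ => ⟨e.trans ((blk_eq_iff _ _ _ _).2 a1.symm), a2⟩⟩
    · by_cases h' : w ∈ Fac d k
      · obtain ⟨i, e⟩ := h'
        exact ⟨i, 0, fun _ => e, fun c => absurd c h⟩
      · exact ⟨0, 0, fun c => absurd c h', fun c => absurd c h⟩
  choose I J hI hJ using h1
  have h2 : ∀ i j, blk d i (k + 1) = blk d j (k + 1) →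
      blk d i k = blk d j k ∧ d (i + k) = d (j + k) := fun i j e =>
    ⟨(blk_eq_iff _ _ _ _).2 fun t ht => (blk_eq_iff _ _ _ _).1 e t (by omega),
      (blk_eq_iff _ _ _ _).1 e k (by omega)⟩
  rw [← Set.InjOn.ncard_image (f := fun w => blk d (I w) (k + 1)) (s := Fac d k)
      (fun w hw w' hw' e => by rw [hI w hw, hI w' hw', (h2 _ _ e).1]),
    ← Set.InjOn.ncard_image (f := fun w => blk d (J w) (k + 1))
      (s := {w | ∃ i, w = blk d i k ∧ Spec d k i})
      (fun w hw w' hw' e => by rw [(hJ w hw).1, (hJ w' hw').1, (h2 _ _ e).1])]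
  have h3 : (fun w => blk d (I w) (k + 1)) '' Fac d k ⊆ Fac d (k + 1) := by
    rintro _ ⟨w, -, rfl⟩
    exact ⟨_, rfl⟩
  have h4 : (fun w => blk d (J w) (k + 1)) '' {w | ∃ i, w = blk d i k ∧ Spec d k i} ⊆
      Fac d (k + 1) := by
    rintro _ ⟨w, -, rfl⟩
    exact ⟨_, rfl⟩
  rw [← Set.ncard_union_eq ?_ (hf.subset h3) (hf.subset h4)]
  · exact Set.ncard_le_ncard (Set.union_subset h3 h4) hf
  · rw [Set.disjoint_left]
    rintro _ ⟨w, hw, rfl⟩ ⟨w', hw', e⟩
    obtain ⟨a1, a2⟩ := h2 _ _ e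
    obtain rfl : w = w' := by rw [hI w hw, (hJ w' hw').1, a1]
    exact (hJ w hw').2 a2

theorem exists_len {S m : ℕ} (hm : 1 ≤ m) (h : (Fac d m).ncard ≤ S * m) :
    ∃ k, m / 2 ≤ k ∧ k < m ∧ (Fac d (k + 1)).ncard ≤ (Fac d k).ncard + 2 * S := by
  by_contra hc
  push Not at hc
  have : ∀ r, m / 2 + r ≤ m → (2 * S + 1) * r ≤ (Fac d (m / 2 + r)).ncard := by
    intro r
    induction r with
    | zero => simp
    | succ r ih =>
      intro hr
      have h1 := ih (by omega)
      have h2 := hc (m / 2 + r) (by omega) (by omega)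
      rw [← add_assoc, mul_add]
      omega
  have h1 := this (m - m / 2) (by omega)
  rw [show m / 2 + (m - m / 2) = m by omega] at h1
  have h2 : m ≤ 2 * (m - m / 2) := by omega
  have h3 : 1 ≤ m - m / 2 := by omega
  nlinarith

theorem exists_idx {R : ℕ} (hf : (Fac d k).Finite)
    (h : {w | ∃ i, w = blk d i k ∧ Spec d k i}.ncard ≤ R) : ∃ idx : ℕ → Fin (R + 1),
      ∀ i j, Spec d k i → Spec d k j → (idx i = idx j ↔ E d i j k) := by
  classical
  have hf' : {w | ∃ i, w = blk d i k ∧ Spec d k i}.Finite :=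
    hf.subset fun w ⟨i, e, _⟩ => ⟨i, e⟩
  rw [Set.ncard_eq_toFinset_card _ hf'] at h
  refine ⟨fun i => if hi : Spec d k i then
    (hf'.toFinset.equivFin ⟨blk d i k, by simpa using ⟨i, rfl, hi⟩⟩).castLE (by omega) else 0,
    fun i j hi hj => ?_⟩
  simp only [dif_pos hi, dif_pos hj, Fin.castLE_inj, EmbeddingLike.apply_eq_iff_eq,
    Subtype.mk.injEq, blk_eq_iff, E]

/-- a special block that does not come back within half its length -/
def Land (d : ℕ → ℕ) (k i : ℕ) : Prop := Spec d k i ∧ ∀ r, 0 < r → 2 * r ≤ k → ¬ E d (i + r) i k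

theorem loop (hap : Aper d) (W : ℕ → Prop) (hW : ∀ i j, W i → W j → E d i j k)
    (hW' : ∀ i j, W i → E d j i k → W j) (hS : ∀ i, W i → Spec d k i) :
    ∃ a π, 1 ≤ π ∧ π ≤ k + 1 ∧ ∀ i, W i →
      ∃ e, Land d k (i + e * π) ∧ ∀ e' < e, E d (i + k + e' * π) a π := by
  classical
  by_cases h : ∃ r, 0 < r ∧ 2 * r ≤ k ∧ ∃ j, W j ∧ W (j + r)
  swap
  · refine ⟨0, 1, le_rfl, by omega, fun i hi => ⟨0, ⟨by simpa using hS i hi, fun r h1 h2 h3 => ?_⟩,
      by simp⟩⟩
    simp only [zero_mul, add_zero] at h3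
    exact h ⟨r, h1, h2, i, hi, hW' _ _ hi h3⟩
  obtain ⟨h1, h2, j, h3, h4⟩ := Nat.find_spec h
  have hmin := fun r => Nat.find_min' h (m := r)
  generalize Nat.find h = π at *
  have per : ∀ i, W i → ∀ t, t + π < k → d (i + t + π) = d (i + t) := by
    intro i hi t ht
    rw [add_assoc, hW i j hi h3 _ ht, hW i _ hi h4 t (by omega)]
    congr 1
    omega
  have last : ∀ i, W (i + π) → E d (i + k) (j + k) π := by
    intro i hi t ht
    have := hW _ _ hi h4 (k - π + t) (by omega)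
    rwa [show i + π + (k - π + t) = i + k + t by omega,
      show j + π + (k - π + t) = j + k + t by omega] at this
  refine ⟨j + k, π, h1, by omega, fun i hi => ?_⟩
  have hex : ∃ e, ¬ W (i + (e + 1) * π) := by
    by_contra hc
    push Not at hc
    have hc' : ∀ e, W (i + e * π) := by
      intro e
      cases e with
      | zero => simpa using hi
      | succ e => exact hc e
    refine hap i π h1 fun n hn => ?_
    have a1 := Nat.div_add_mod (n - i) π
    have a2 := Nat.mod_lt (n - i) h1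
    have := hW _ _ (hc' ((n - i) / π + 1)) (hc' ((n - i) / π)) ((n - i) % π) (by omega)
    rw [add_mul, mul_comm _ π] at this
    rwa [show i + (π * ((n - i) / π) + 1 * π) + (n - i) % π = n + π by omega,
      show i + π * ((n - i) / π) + (n - i) % π = n by omega] at this
  have a1 := Nat.find_spec hex
  have a2 := fun e => Nat.find_min hex (m := e)
  generalize Nat.find hex = e at *
  push Not at a2
  have a3 : W (i + e * π) := by
    cases e with
    | zero => simpa using hi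
    | succ e => exact a2 e (by omega)
  refine ⟨e, ⟨hS _ a3, fun r b1 b2 b3 => a1 ?_⟩, fun e' he => ?_⟩
  · have b4 := hW' _ _ a3 b3
    have b5 := hmin r ⟨b1, b2, _, a3, b4⟩
    rw [add_mul, one_mul, ← add_assoc]
    generalize i + e * π = l at *
    refine hW' _ _ a3 fun t ht => ?_
    by_cases c : t + π < k
    · rw [← per l a3 t c]
      congr 1
      omega
    · have := per _ b4 (t - r) (by omega)
      rwa [show l + r + (t - r) + π = l + π + t by omega,
        show l + r + (t - r) = l + t by omega] at this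
  · rw [add_right_comm]
    refine last _ ?_
    have := a2 e' he
    rwa [add_mul, one_mul, ← add_assoc] at this

theorem edge (hap : Aper d) {P : ℕ} (hf : (Fac d k).Finite) (hP : (Fac d k).ncard ≤ P)
    (W : ℕ → Prop) (hW : ∀ i j, W i → W j → E d i j (k + 1)) :
    ∃ a π, 1 ≤ π ∧ π ≤ P + 1 ∧ ∀ i, W i → E d (i + k) a π ∧ Spec d k (i + π) := by
  classical
  by_cases h : ∃ j, W j
  swap
  · exact ⟨0, 1, le_rfl, by omega, fun i hi => absurd ⟨i, hi⟩ h⟩
  obtain ⟨j, hj⟩ := h
  obtain ⟨r0, h1, h2⟩ := exists_spec hap hf hP (j + 1)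
  have hex : ∃ r, Spec d k (j + 1 + r) := ⟨r0, h2⟩
  have a1 := Nat.find_spec hex
  have a2 := fun e => Nat.find_min hex (m := e)
  have a3 := Nat.find_min' hex h2
  generalize Nat.find hex = r at *
  refine ⟨j + k, r + 1, by omega, by omega, fun i hi => ?_⟩
  have a4 := follow (L := r + 1) (hW i j hi hj) (fun s b1 b2 => by
    have := a2 (s - 1) (by omega)
    rwa [show j + 1 + (s - 1) = j + s by omega] at this) r le_rfl
  refine ⟨a4.shift k _ le_rfl, Spec.congr ?_ (a4.shift (r + 1) k (by omega)).symm⟩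
  rwa [show j + (r + 1) = j + 1 + r by omega]

theorem Adm.pw {κ : Type} {a π : κ → ℕ} {N s : ℕ} (h : Adm d a π N s) (x : κ) (e : ℕ)
    (h' : ∀ e' < e, E d (s + e' * π x) (a x) (π x)) : Adm d a π (N + 1) (s + e * π x) :=
  ⟨s, x, e, h, rfl, h'⟩

/-- all times up to `s` are close to admissible times -/
def Cov (d : ℕ → ℕ) {κ : Type} (a π : κ → ℕ) (B N s : ℕ) : Prop :=
  Adm d a π N s ∧ ∀ T ≤ s, ∃ t, T ≤ t ∧ t ≤ T + B ∧ Adm d a π N t

theorem Cov.pw {κ : Type} {a π : κ → ℕ} {B N s : ℕ} (h : Cov d a π B N s) (x : κ) (hx : π x ≤ B)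
    (e : ℕ) (h' : ∀ e' < e, E d (s + e' * π x) (a x) (π x)) :
    Cov d a π B (N + 1) (s + e * π x) := by
  refine ⟨h.1.pw x e h', ?_⟩
  induction e with
  | zero =>
    intro T hT
    obtain ⟨t, a1, a2, a3⟩ := h.2 T (by simpa using hT)
    exact ⟨t, a1, a2, by simpa using a3.pw x 0 (by simp)⟩
  | succ e ih =>
    intro T hT
    by_cases c : T ≤ s + e * π x
    · exact ih (fun e' he => h' e' (by omega)) T c
    · refine ⟨_, hT, ?_, h.1.pw x _ h'⟩
      rw [add_mul]
      omega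

theorem rauzy (hd : ∀ i, d i ≤ 1) (hap : Aper d) (S m : ℕ) (hm : 2 ≤ m) (hf : (Fac d m).Finite)
    (h : (Fac d m).ncard ≤ S * m) :
    ∃ a π : Option (Fin (2 * S + 1) × Option (Fin 2)) → ℕ, (∀ x, 1 ≤ π x ∧ π x ≤ (S + 1) * m) ∧
      ∀ K T, T ≤ K * m → ∃ t, T ≤ t ∧ t ≤ T + (S + 1) * m ∧
        Adm d a π (2 * (4 * K * (2 * S + 1)) + 2) t := by
  obtain ⟨k, k1, k2, k3⟩ := exists_len (by omega) h
  have fin : ∀ l ≤ m, (Fac d l).Finite := fun l hl => (hf.image _).subset (fac_image hl)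
  have hk := fin k k2.le
  have hP : (Fac d k).ncard ≤ S * m :=
    ((Set.ncard_le_ncard (fac_image k2.le) (hf.image _)).trans (Set.ncard_image_le hf)).trans h
  obtain ⟨idx, hidx⟩ := exists_idx (R := 2 * S) hk (by
    have := card_spec (fin (k + 1) k2)
    omega)
  choose a1 π1 l1 l2 l3 using fun s : Fin (2 * S + 1) => loop (k := k) hap
    (fun i => Spec d k i ∧ idx i = s) (fun i j hi hj => (hidx i j hi.1 hj.1).1 (hi.2.trans hj.2.symm))
    (fun i j hi e => ⟨hi.1.congr e.symm, ((hidx j i (hi.1.congr e.symm) hi.1).2 e).trans hi.2⟩)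
    fun i hi => hi.1
  choose a2 π2 e1 e2 e3 using fun (s : Fin (2 * S + 1)) (b : Fin 2) => edge hap hk hP
    (fun i => Spec d k i ∧ idx i = s ∧ d (i + k) = b) fun i j hi hj =>
      ((hidx i j hi.1 hj.1).1 (hi.2.1.trans hj.2.1.symm)).succ (hi.2.2.trans hj.2.2.symm)
  obtain ⟨i0, b1, b2⟩ := exists_spec hap hk hP 0
  rw [zero_add] at b2
  obtain ⟨a, π, c1, c2, c3, c4, c5, c6⟩ : ∃ a π : Option (Fin (2 * S + 1) × Option (Fin 2)) → ℕ,
      a none = 0 ∧ π none = i0 + k ∧ (∀ s, a (some (s, none)) = a1 s) ∧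
      (∀ s, π (some (s, none)) = π1 s) ∧ (∀ s b, a (some (s, some b)) = a2 s b) ∧
      ∀ s b, π (some (s, some b)) = π2 s b :=
    ⟨fun o => o.elim 0 fun x => x.2.elim (a1 x.1) (a2 x.1),
      fun o => o.elim (i0 + k) fun x => x.2.elim (π1 x.1) (π2 x.1), rfl, rfl, fun _ => rfl,
      fun _ => rfl, fun _ _ => rfl, fun _ _ => rfl⟩
  have hπ : ∀ x, 1 ≤ π x ∧ π x ≤ (S + 1) * m := by
    rw [add_mul, one_mul]
    rintro (_ | ⟨s, _ | b⟩)
    · omega
    · have := l1 s
      have := l2 s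
      rw [c4]
      omega
    · have := e1 s b
      have := e2 s b
      rw [c6]
      omega
  have jump : ∀ N i, Spec d k i → Cov d a π ((S + 1) * m) N (i + k) →
      ∃ j, i ≤ j ∧ Land d k j ∧ Cov d a π ((S + 1) * m) (N + 1) (j + k) := by
    intro N i hi hc
    obtain ⟨e, d1, d2⟩ := l3 (idx i) i ⟨hi, rfl⟩
    refine ⟨_, by omega, d1, ?_⟩
    have := hc.pw (some (idx i, none)) (hπ _).2 e (by rwa [c3, c4])
    rwa [c4, add_right_comm i k] at this
  have step : ∀ r i, Land d k i ∧ Cov d a π ((S + 1) * m) (2 * r + 2) (i + k) →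
      ∃ j, i < j ∧ Land d k j ∧ Cov d a π ((S + 1) * m) (2 * (r + 1) + 2) (j + k) := by
    intro r i ⟨hi, hc⟩
    obtain ⟨d1, d2⟩ := e3 (idx i) ⟨d (i + k), Nat.lt_succ_of_le (hd _)⟩ i ⟨hi.1, rfl, rfl⟩
    have d3 := hc.pw (some (idx i, some ⟨d (i + k), Nat.lt_succ_of_le (hd _)⟩)) (hπ _).2 1 (by
      intro e' he
      obtain rfl : e' = 0 := by omega
      rwa [c5, c6, zero_mul, add_zero])
    rw [c6, one_mul, add_right_comm i k] at d3
    obtain ⟨j, d4, d5⟩ := jump _ _ d2 d3
    have := e1 (idx i) ⟨d (i + k), Nat.lt_succ_of_le (hd _)⟩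
    exact ⟨j, by omega, d5⟩
  choose! f hf1 hf2 using step
  obtain ⟨j0, -, d0⟩ := jump 1 i0 b2 (by
    have := Cov.pw (d := d) (a := a) (π := π) (B := (S + 1) * m) (N := 0) (s := 0)
      ⟨rfl, fun T hT => ⟨0, hT, Nat.zero_le _, rfl⟩⟩ none (hπ _).2 1 (by
        intro e' he t _
        obtain rfl : e' = 0 := by omega
        simp [c1])
    rwa [c2, one_mul, zero_add (i0 + k)] at this)
  obtain ⟨I, I0, I1⟩ : ∃ I : ℕ → ℕ, I 0 = j0 ∧ ∀ r, I (r + 1) = f r (I r) :=
    ⟨fun r => Nat.rec j0 f r, rfl, fun _ => rfl⟩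
  have good : ∀ r, Land d k (I r) ∧ Cov d a π ((S + 1) * m) (2 * r + 2) (I r + k) := by
    intro r
    induction r with
    | zero => exact I0 ▸ d0
    | succ r ih => exact I1 r ▸ hf2 r _ ih
  have mono : StrictMono I := strictMono_nat_of_lt_succ fun r => I1 r ▸ hf1 r _ (good r)
  have prog : ∀ r, 2 * I r + k + 1 ≤ 2 * I (r + (2 * S + 1)) := by
    intro r
    obtain ⟨x, y, hxy, e⟩ : ∃ x y : Fin (2 * S + 2), x < y ∧ idx (I (r + y)) = idx (I (r + x)) := by
      obtain ⟨x, y, hne, e⟩ := Fintype.exists_ne_map_eq_of_card_lt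
        (fun x : Fin (2 * S + 2) => idx (I (r + x))) (by simp)
      rcases lt_or_gt_of_ne hne with h | h
      · exact ⟨x, y, h, e.symm⟩
      · exact ⟨y, x, h, e⟩
    have d1 : I (r + x) < I (r + y) := mono (by simpa using hxy)
    have d2 := mono.monotone (Nat.le_add_right r x)
    have d3 := mono.monotone (show r + y ≤ r + (2 * S + 1) by omega)
    have d4 := (good (r + x)).1.2 (I (r + y) - I (r + x)) (by omega)
    rw [Nat.add_sub_cancel' d1.le] at d4
    have d5 := mt d4 (not_not.2 ((hidx _ _ (good _).1.1 (good _).1.1).1 e))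
    omega
  have prog' : ∀ q, q * (k + 1) ≤ 2 * I (q * (2 * S + 1)) := by
    intro q
    induction q with
    | zero => simp
    | succ q ih =>
      have := prog (q * (2 * S + 1))
      rw [add_mul, add_mul q 1, one_mul, one_mul]
      omega
  refine ⟨a, π, hπ, fun K T hT => (good _).2.2 T (hT.trans ?_)⟩
  have d1 := prog' (4 * K)
  have d2 : K * m ≤ K * (2 * (k + 1)) := Nat.mul_le_mul_left K (by omega)
  nlinarith

end Pool.Agent.MP_1e211b_nt.H92
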