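import Mathlib
import Pool.Agent.MP_1e211b_nt.H60.Orbit
import Pool.Agent.MP_1e211b_nt.H92.Dip
import Pool.Agent.MP_1e211b_nt.H92.Rauzy

set_option autoImplicit false

/-!
With a dictionary of bounded size the orbit is subexponentially small somewhere in every long
window.
-/

namespace Pool.Agent.MP_1e211b_nt.H92

open Real Filter Pool.Agent.MP_60c1b5_an.H73 Pool.Agent.MP_1e211b_nt.H60

/-- the number of odd steps before time `t` -/
def H (α : ℚ) (t : ℕ) : ℕ := ∑ i ∈ Finset.range t, par α i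

/-- the inverse multiplier -/
def mu (α : ℚ) (t : ℕ) : ℚ := 2 ^ t / 3 ^ H α t

/-- the denominator of the fixed point of a block -/
def dn (α : ℚ) (a ρ : ℕ) : ℤ := 2 ^ ρ - 3 ^ ∑ i ∈ Finset.range ρ, par α (a + i)

/-- the numerator of the fixed point of a block -/
def nu (α : ℚ) (a ρ : ℕ) : ℕ := pp (fun i => par α (a + i)) ρ

variable {α : ℚ}

theorem H_add (s r : ℕ) : H α (s + r) = H α s + ∑ i ∈ Finset.range r, par α (s + i) :=
  Finset.sum_range_add _ _ _

theorem sum_par_le (a r : ℕ) : ∑ i ∈ Finset.range r, par α (a + i) ≤ r := by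
  simpa using Finset.sum_le_card_nsmul (Finset.range r) (fun i => par α (a + i)) 1
    fun i _ => par_le_one α _

theorem H_le {s t : ℕ} (h : s ≤ t) : H α s ≤ H α t ∧ H α t + s ≤ H α s + t := by
  obtain ⟨r, rfl⟩ := Nat.exists_eq_add_of_le h
  have := sum_par_le (α := α) s r
  rw [H_add]
  omega

theorem mu_pos (t : ℕ) : 0 < mu α t := by unfold mu; positivity

theorem dn_ne {a ρ : ℕ} (h : 1 ≤ ρ) : dn α a ρ ≠ 0 := by
  intro e
  have h1 : Odd ((3 : ℤ) ^ ∑ i ∈ Finset.range ρ, par α (a + i)) := Odd.pow (by decide)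
  rw [← sub_eq_zero.1 e, ← Int.not_even_iff_odd] at h1
  exact h1 (even_two.pow_of_ne_zero (by omega))

theorem dn_le (a ρ : ℕ) : |dn α a ρ| ≤ 2 ^ (3 * ρ) := by
  have h1 : (3 : ℤ) ^ ∑ i ∈ Finset.range ρ, par α (a + i) ≤ 2 ^ (3 * ρ) := by
    rw [pow_mul]
    exact (pow_le_pow_right₀ (by norm_num) (sum_par_le a ρ)).trans (by gcongr; norm_num)
  have h2 : (2 : ℤ) ^ ρ ≤ 2 ^ (3 * ρ) := pow_le_pow_right₀ (by norm_num) (by omega)
  have h3 : (0 : ℤ) < 3 ^ ∑ i ∈ Finset.range ρ, par α (a + i) := by positivity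
  have h4 : (0 : ℤ) < 2 ^ ρ := by positivity
  rw [dn, abs_le]
  constructor <;> linarith

theorem nu_le (a ρ : ℕ) : |(nu α a ρ : ℤ)| ≤ 2 ^ (3 * ρ) := by
  rw [Nat.abs_cast, pow_mul]
  have : nu α a ρ ≤ (2 ^ 3) ^ ρ :=
    (pp_le _ (fun i => par_le_one α _) ρ).trans (by gcongr; norm_num)
  exact_mod_cast this

theorem block {s a ρ : ℕ} (h : 1 ≤ ρ) (e : E (par α) s a ρ) :
    (T^[s + ρ] α - nu α a ρ / dn α a ρ) * mu α (s + ρ) =
      (T^[s] α - nu α a ρ / dn α a ρ) * mu α s := by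
  have h1 := iterate_eq (T^[s] α) ρ
  have h2 : ∑ i ∈ Finset.range ρ, par α (s + i) = ∑ i ∈ Finset.range ρ, par α (a + i) :=
    Finset.sum_congr rfl fun i hi => e i (Finset.mem_range.1 hi)
  rw [pp_congr (w' := fun i => par α (a + i)) fun i hi => by rw [par_add, e i hi],
    ← Function.iterate_add_apply, add_comm ρ s] at h1
  simp only [par_add, h2] at h1
  have h3 : ((dn α a ρ : ℤ) : ℚ) ≠ 0 := by exact_mod_cast dn_ne h
  have h4 : ((dn α a ρ : ℤ) : ℚ) = 2 ^ ρ - 3 ^ ∑ i ∈ Finset.range ρ, par α (a + i) := by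
    simp [dn]
  rw [mu, mu, H_add, h2, pow_add, pow_add]
  field_simp
  rw [h4, nu]
  linear_combination (2 ^ ρ - 3 ^ ∑ i ∈ Finset.range ρ, par α (a + i)) * h1

theorem rep {κ : Type} {a ρ : κ → ℕ} (h : ∀ x, 1 ≤ ρ x) (N : ℕ) : ∀ t, Adm (par α) a ρ N t →
    ∃ (x : Fin N → κ) (s s' : Fin N → ℕ), (∀ i, s i ≤ t ∧ s' i ≤ t) ∧ T^[t] α * mu α t =
      α + ∑ i, nu α (a (x i)) (ρ (x i)) / dn α (a (x i)) (ρ (x i)) * (mu α (s' i) - mu α (s i)) := by
  induction N with
  | zero =>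
    rintro t rfl
    exact ⟨Fin.elim0, 0, 0, by simp, by simp [mu, H]⟩
  | succ N ih =>
    rintro t ⟨s0, x0, e, h1, rfl, h2⟩
    obtain ⟨x, s, s', a1, a2⟩ := ih s0 h1
    have a3 : (T^[s0 + e * ρ x0] α - nu α (a x0) (ρ x0) / dn α (a x0) (ρ x0)) *
        mu α (s0 + e * ρ x0) = (T^[s0] α - nu α (a x0) (ρ x0) / dn α (a x0) (ρ x0)) * mu α s0 := by
      induction e with
      | zero => simp
      | succ e ih' =>
        rw [add_mul, one_mul, ← add_assoc, block (h x0) (h2 e (by omega)),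
          ih' fun e' he => h2 e' (by omega)]
    refine ⟨Fin.cons x0 x, Fin.cons s0 s, Fin.cons (s0 + e * ρ x0) s', ?_, ?_⟩
    · refine Fin.cases (by simp) fun i => ?_
      have := a1 i
      simp only [Fin.cons_succ]
      omega
    · rw [Fin.sum_univ_succ]
      simp only [Fin.cons_zero, Fin.cons_succ]
      linear_combination a3 + a2

theorem step_le (t : ℕ) : |T^[t + 1] α * mu α (t + 1) - T^[t] α * mu α t| ≤ mu α t := by
  have h1 := two_mul_T (T^[t] α)
  rw [par_add, add_zero, ← Function.iterate_succ_apply' T] at h1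
  have h2 : T^[t + 1] α * mu α (t + 1) - T^[t] α * mu α t = par α t / 3 ^ par α t * mu α t := by
    rw [mu, mu, H_add, Finset.sum_range_one, add_zero, pow_add _ (H α t), pow_succ]
    field_simp
    linear_combination h1
  have h3 := mu_pos (α := α) t
  rw [h2, abs_of_nonneg (by positivity)]
  refine mul_le_of_le_one_left h3.le ((div_le_one (by positivity)).2 ?_)
  exact le_trans (by exact_mod_cast par_le_one α t) (one_le_pow₀ (by norm_num))

theorem approx (s L : ℕ) (η : ℝ) (h : ∀ t, s ≤ t → t ≤ s + L → 1 ≤ η * |((T^[t] α : ℚ) : ℝ)|)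
    (hL : 2 * L * η ≤ 1) (h0 : 0 ≤ η) : ∀ r ≤ L,
      |((T^[s + r] α * mu α (s + r) : ℚ) : ℝ) - (T^[s] α * mu α s : ℚ)| ≤
        2 * r * η * |((T^[s] α * mu α s : ℚ) : ℝ)| := by
  intro r
  induction r with
  | zero => simp
  | succ r ih =>
    intro hr
    have a1 := ih (by omega)
    have a2 : |((T^[s + r + 1] α * mu α (s + r + 1) : ℚ) : ℝ) - (T^[s + r] α * mu α (s + r) : ℚ)| ≤
        (mu α (s + r) : ℚ) := by exact_mod_cast step_le (s + r)
    have a3 : (0 : ℝ) < (mu α (s + r) : ℚ) := by exact_mod_cast mu_pos _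
    have a4 : ((mu α (s + r) : ℚ) : ℝ) ≤ η * |((T^[s + r] α * mu α (s + r) : ℚ) : ℝ)| := by
      rw [Rat.cast_mul, abs_mul, abs_of_pos a3, ← mul_assoc]
      exact le_mul_of_one_le_left a3.le (h _ (by omega) (by omega))
    have a5 : 2 * r * η ≤ 1 := le_trans (by gcongr; omega) hL
    rw [← add_assoc]
    generalize ((T^[s + r + 1] α * mu α (s + r + 1) : ℚ) : ℝ) = x at *
    generalize ((T^[s + r] α * mu α (s + r) : ℚ) : ℝ) = y at *
    generalize ((T^[s] α * mu α s : ℚ) : ℝ) = z at *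
    have a6 : |y| ≤ 2 * |z| := by
      have := abs_sub_abs_le_abs_sub y z
      nlinarith [abs_nonneg z]
    have a7 := abs_sub_le x y z
    push_cast
    nlinarith [mul_le_mul_of_nonneg_left a6 h0]

theorem window (hα : Odd α.den) {U : Ultrafilter ℕ} (hU : (U : Filter ℕ) ≤ atTop) {κ : Type}
    [Fintype κ] (N w l : ℕ) (hl : l = (Fintype.card κ + 2) * (25 * (Fintype.card κ + 2) + 4))
    (h : ∀ᶠ n in (U : Filter ℕ), ∃ a ρ : κ → ℕ,
      (∀ x, 1 ≤ ρ x ∧ 2 * (Fintype.card κ + 1) * Fintype.card κ * ρ x ≤ n) ∧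
        ∀ s ≤ (w + l) * n, ∃ t, s ≤ t ∧ t ≤ s + n ∧ Adm (par α) a ρ N t)
    (δ : ℝ) (hδ : 0 < δ) : ∀ᶠ n : ℕ in (U : Filter ℕ), ∃ t, w * n ≤ t ∧ t ≤ (w + l) * n ∧
      |((T^[t] α : ℚ) : ℝ)| < exp (δ * n) := by
  classical
  by_contra hc
  rw [← Ultrafilter.eventually_not] at hc
  set A := Fintype.card κ with hA
  set g := 25 * (A + 2) + 4 with hg
  choose Z hZ hZ' using exists_int_orbit α hα
  obtain ⟨a, ρ, t, x, s, s', HH⟩ : ∃ (a ρ : ℕ → κ → ℕ) (t : ℕ → Fin (A + 2) → ℕ)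
      (x : ℕ → Fin (A + 2) → Fin N → κ) (s s' : ℕ → Fin (A + 2) → Fin N → ℕ),
      ∀ᶠ n in (U : Filter ℕ), (∀ y, 1 ≤ ρ n y ∧ 2 * (A + 1) * A * ρ n y ≤ n) ∧ ∀ i : Fin (A + 2),
        ((w + i * g) * n ≤ t n i ∧ t n i ≤ (w + i * g) * n + n) ∧
        (∀ j, s n i j ≤ t n i ∧ s' n i j ≤ t n i) ∧ T^[t n i] α * mu α (t n i) =
          α + ∑ j, nu α (a n (x n i j)) (ρ n (x n i j)) / dn α (a n (x n i j)) (ρ n (x n i j)) *
            (mu α (s' n i j) - mu α (s n i j)) := by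
    have : ∀ᶠ n in (U : Filter ℕ), ∃ v : (κ → ℕ) × (κ → ℕ) × (Fin (A + 2) → ℕ) ×
        (Fin (A + 2) → Fin N → κ) × (Fin (A + 2) → Fin N → ℕ) × (Fin (A + 2) → Fin N → ℕ),
        (∀ y, 1 ≤ v.2.1 y ∧ 2 * (A + 1) * A * v.2.1 y ≤ n) ∧ ∀ i : Fin (A + 2),
        ((w + i * g) * n ≤ v.2.2.1 i ∧ v.2.2.1 i ≤ (w + i * g) * n + n) ∧
        (∀ j, v.2.2.2.2.1 i j ≤ v.2.2.1 i ∧ v.2.2.2.2.2 i j ≤ v.2.2.1 i) ∧
          T^[v.2.2.1 i] α * mu α (v.2.2.1 i) = α + ∑ j, nu α (v.1 (v.2.2.2.1 i j))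
            (v.2.1 (v.2.2.2.1 i j)) / dn α (v.1 (v.2.2.2.1 i j)) (v.2.1 (v.2.2.2.1 i j)) *
            (mu α (v.2.2.2.2.2 i j) - mu α (v.2.2.2.2.1 i j)) := by
      filter_upwards [h] with n ⟨a, ρ, h1, h2⟩
      choose t b1 b2 b3 using fun i : Fin (A + 2) => h2 ((w + i * g) * n)
        (Nat.mul_le_mul_right n (Nat.add_le_add_left (hl ▸ Nat.mul_le_mul_right g i.2.le) w))
      choose x s s' c1 c2 using fun i => rep (fun y => (h1 y).1) N _ (b3 i)
      exact ⟨(a, ρ, t, x, s, s'), h1, fun i => ⟨⟨b1 i, b2 i⟩, c1 i, c2 i⟩⟩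
    obtain ⟨v, hv⟩ := this.choice
    exact ⟨_, _, _, _, _, _, hv⟩
  obtain ⟨x0, hx0⟩ := Ultrafilter.eventually_exists_iff.1
    (Eventually.of_forall (f := (U : Filter ℕ)) fun n => (⟨x n, rfl⟩ : ∃ x0, x n = x0))
  have ht : ∀ᶠ n in (U : Filter ℕ), ∀ i, w * n ≤ t n i ∧ t n i ≤ (w + l) * n := by
    filter_upwards [HH] with n hn i
    obtain ⟨b1, b2⟩ := (hn.2 i).1
    have b3 : (i + 1) * g ≤ l := hl ▸ Nat.mul_le_mul_right g i.2
    have b4 : (w + i * g + 1) * n ≤ (w + l) * n := Nat.mul_le_mul_right n (by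
      rw [add_mul] at b3
      omega)
    rw [add_mul] at b1
    rw [add_mul _ 1] at b4
    omega
  obtain ⟨σ, hσ⟩ : ∃ σ : ℕ → Fin (A + 2) → Option (Fin N ⊕ Fin N) → ℕ,
      ∀ n i o, σ n i o = o.elim 0 (Sum.elim (s' n i) (s n i)) := ⟨_, fun _ _ _ => rfl⟩
  have hσt : ∀ᶠ n in (U : Filter ℕ), ∀ i o, σ n i o ≤ t n i := by
    filter_upwards [HH] with n hn i o
    rw [hσ]
    rcases o with _ | j | j
    · exact Nat.zero_le _
    · exact ((hn.2 i).2.1 j).2
    · exact ((hn.2 i).2.1 j).1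
  have hH : ∀ r, H α r ≤ r := fun r => by simpa [H] using (H_le (α := α) (Nat.zero_le r)).2
  have lin : ∀ (i : Fin (A + 2)) (e : ℕ → ℕ), (∀ᶠ n in (U : Filter ℕ), e n ≤ t n i) →
      (fun n => (e n : ℤ)) ∈ LinB U := fun i e he => ⟨w + l, (he.and ht).mono fun n hn => by
    rw [Nat.abs_cast]
    exact_mod_cast hn.1.trans (hn.2 i).2⟩
  have hb : ∀ᶠ n in (U : Filter ℕ), ∀ F : κ → ℤ, (∀ y, |F y| ≤ 2 ^ (3 * ρ n y)) →
      |∏ y, F y| ≤ 2 ^ (2 * n / (A + 1)) := by
    filter_upwards [HH] with n hn F hF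
    rw [Finset.abs_prod]
    refine (Finset.prod_le_prod (fun _ _ => abs_nonneg _) fun y _ => hF y).trans ?_
    rw [Finset.prod_pow_eq_pow_sum]
    refine pow_le_pow_right₀ (by norm_num) ((Nat.le_div_iff_mul_le (by omega)).2 ?_)
    rcases Nat.eq_zero_or_pos A with e | e
    · have : IsEmpty κ := Fintype.card_eq_zero_iff.1 e
      simp
    · refine Nat.le_of_mul_le_mul_left ?_ e
      rw [Finset.sum_mul, Finset.mul_sum]
      refine (Finset.sum_le_card_nsmul _ _ (2 * n) fun y _ => ?_).trans (by simp [hA])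
      have := (hn.1 y).2
      nlinarith
  refine dip hU (κ := Option κ) (J := Option (Fin N ⊕ Fin N)) (ι := Fin (A + 2)) (by simp [hA])
    (fun n o => ∏ y, if o = some y then (nu α (a n y) (ρ n y) : ℤ) else dn α (a n y) (ρ n y))
    (fun n _ => 2 * n / (A + 1)) ?_
    (fun n i => (∏ y, dn α (a n y) (ρ n y)) * Z (t n i)) (w + l + 3) ?_
    (fun i => Option.map (Sum.elim (x0 i) (x0 i)))
    (fun o => o.elim α.num (Sum.elim (fun _ => α.den) fun _ => -α.den))
    (fun i o n => (σ n i o : ℤ) - t n i) (fun i o n => (H α (t n i) : ℤ) - H α (σ n i o))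
    (fun i o => (LinB U).sub_mem (lin i _ (hσt.mono fun n hn => hn i o))
      (lin i _ (Eventually.of_forall fun _ => le_rfl)))
    (fun i o => (LinB U).sub_mem (lin i _ (Eventually.of_forall fun _ => hH _))
      (lin i _ (hσt.mono fun n hn => (hH _).trans (hn i o)))) ?_
    (fun n i => -(t n i : ℤ)) (fun n i => H α (t n i)) (w + l) ?_ ?_ (δ / 2) (half_pos hδ)
    (fun n => ((∏ y, dn α (a n y) (ρ n y) : ℤ) : ℝ) * α.den *
      (T^[w * n] α * mu α (w * n) : ℚ)) ?_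
  · filter_upwards [hb] with n hn
    refine ⟨fun o => hn _ fun y => ?_, ?_⟩
    · split_ifs
      · exact nu_le _ _
      · exact dn_le _ _
    · simpa [hA] using Nat.mul_div_le (2 * n) (A + 1)
  · filter_upwards [hb, ht, hU ((tendsto_pow_atTop_atTop_of_one_lt
      (one_lt_two (α := ℤ))).eventually_ge_atTop (|α.num| + α.den))] with n b1 b2 b3 i
    have b4 : |α.num| + α.den ≤ 2 ^ n := b3
    have b5 : |Z (t n i)| ≤ 2 ^ n * 2 ^ ((w + l) * n) := by
      refine ((le_add_of_nonneg_right (by positivity)).trans (hZ' _)).trans ?_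
      have := (b2 i).2
      gcongr
      norm_num
    have b6 := (b1 _ fun y => dn_le (α := α) (a n y) (ρ n y)).trans
      (pow_le_pow_right₀ (by norm_num) (Nat.div_le_self _ _))
    rw [abs_mul]
    exact (mul_le_mul b6 b5 (abs_nonneg _) (by positivity)).trans_eq (by ring)
  · filter_upwards [HH, hσt, hx0] with n b1 b2 b3 i
    refine ⟨fun o => ?_, ?_⟩
    · have := (H_le (α := α) (b2 i o)).2
      omega
    · have b4 := (b1.2 i).2.2
      have b5 : (α.den : ℚ) ≠ 0 := by exact_mod_cast α.den_nz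
      have b6 : ∀ r : ℕ, (2 : ℚ) ^ ((r : ℤ) - t n i) * 3 ^ ((H α (t n i) : ℤ) - H α r) =
          mu α r / mu α (t n i) := by
        intro r
        rw [zpow_sub₀ (by norm_num), zpow_sub₀ (by norm_num), mu, mu]
        simp only [zpow_natCast]
        field_simp
      have b7 : ∀ y, ((∏ y', if some y = some y' then (nu α (a n y') (ρ n y') : ℤ) else
          dn α (a n y') (ρ n y') : ℤ) : ℚ) = (∏ y', dn α (a n y') (ρ n y') : ℤ) *
            (nu α (a n y) (ρ n y) / dn α (a n y) (ρ n y)) := by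
        intro y
        have : ((dn α (a n y) (ρ n y) : ℤ) : ℚ) ≠ 0 := by exact_mod_cast dn_ne (b1.1 y).1
        rw [← Finset.mul_prod_erase _ _ (Finset.mem_univ y),
          ← Finset.mul_prod_erase _ _ (Finset.mem_univ y), if_pos rfl,
          Finset.prod_congr rfl fun y' hy => if_neg fun e =>
            Finset.ne_of_mem_erase hy (Option.some_injective _ e).symm]
        push_cast
        field_simp
      have b8 := (mu_pos (α := α) (t n i)).ne'
      rw [hZ, b3] at b4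
      simp only [b6, Fintype.sum_option, Fintype.sum_sum_type, hσ, Option.elim, Option.map,
        Sum.elim_inl, Sum.elim_inr, b7, reduceCtorEq, if_false, Int.cast_mul]
      generalize ((∏ y', dn α (a n y') (ρ n y') : ℤ) : ℚ) = Q
      rw [← Finset.sum_add_distrib, Finset.sum_congr rfl (g := fun j => α.den * Q / mu α (t n i) *
        (nu α (a n (x0 i j)) (ρ n (x0 i j)) / dn α (a n (x0 i j)) (ρ n (x0 i j)) *
          (mu α (s' n i j) - mu α (s n i j)))) fun j _ => by ring, ← Finset.mul_sum,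
        ← sub_eq_iff_eq_add'.2 b4, ← α.mul_den_eq_num, show mu α 0 = 1 by simp [mu, H]]
      field_simp
      ring
  · filter_upwards [ht] with n hn i
    rw [abs_neg, Nat.abs_cast, Nat.abs_cast]
    exact ⟨by exact_mod_cast (hn i).2, by exact_mod_cast (hH _).trans (hn i).2⟩
  · have key : ∀ᶠ n in (U : Filter ℕ), ∀ i i' : Fin (A + 2), i < i' →
        t n i + (25 * (A + 2) + 3) * n ≤ t n i' := by
      filter_upwards [HH] with n hn i i' hi
      have b1 := (hn.2 i).1.2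
      have b2 := (hn.2 i').1.1
      have b3 : (w + i * g + g) * n ≤ (w + i' * g) * n := Nat.mul_le_mul_right n (by
        have := Nat.mul_le_mul_right g (show (i : ℕ) + 1 ≤ i' from hi)
        rw [add_mul] at this
        omega)
      rw [add_mul _ g, hg, show (25 * (A + 2) + 4) * n = (25 * (A + 2) + 3) * n + n by ring] at b3
      rw [hg] at b1 b2
      omega
    filter_upwards [key] with n hn i i' hi
    rw [Fintype.card_fin]
    rcases lt_or_gt_of_ne hi with e | e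
    · have := hn _ _ e
      exact le_trans (by omega) (le_abs_self _)
    · have := hn _ _ e
      exact le_trans (by omega) (neg_le_abs _)
  · filter_upwards [HH, ht, hc, hU (tendsto_natCast_atTop_atTop.eventually
      ((isLittleO_pow_exp_pos_mul_atTop 1 (half_pos hδ)).bound
        (show (0 : ℝ) < 1 / (2 * l + 1) by positivity)))] with n b1 b2 b3 b4
    push Not at b3
    have b5 : 2 * (l * n : ℕ) * exp (-(δ * n)) ≤ exp (-(δ / 2 * n)) := by
      have c1 : ‖(n : ℝ) ^ 1‖ ≤ 1 / (2 * l + 1) * ‖exp (δ / 2 * n)‖ := b4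
      rw [pow_one, Real.norm_natCast, Real.norm_eq_abs, abs_of_pos (exp_pos _), one_div,
        le_inv_mul_iff₀ (by positivity)] at c1
      rw [show -(δ / 2 * n) = δ / 2 * n + -(δ * n) by ring, exp_add]
      gcongr
      push_cast
      nlinarith [(Nat.cast_nonneg n : (0 : ℝ) ≤ n)]
    have b6 : ∀ r, w * n ≤ r → r ≤ w * n + l * n → 1 ≤ exp (-(δ * n)) * |((T^[r] α : ℚ) : ℝ)| := by
      intro r c1 c2
      rw [exp_neg, le_inv_mul_iff₀ (exp_pos _), mul_one]
      exact b3 r c1 (by rwa [add_mul])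
    have b7 := approx (w * n) (l * n) _ b6 (b5.trans (exp_le_one_iff.2 (by
      rw [neg_nonpos]
      positivity))) (exp_pos _).le
    have b8 : (α.den : ℝ) ≠ 0 := by exact_mod_cast α.den_nz
    refine ⟨mul_ne_zero (mul_ne_zero ?_ b8) ?_, fun i => ?_⟩
    · exact_mod_cast Finset.prod_ne_zero_iff.2 fun y _ => dn_ne (b1.1 y).1
    · rw [Rat.cast_ne_zero]
      refine mul_ne_zero (fun e => ?_) (mu_pos _).ne'
      have := b6 _ le_rfl (Nat.le_add_right _ _)
      rw [e] at this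
      norm_num at this
    · obtain ⟨r, hr⟩ := Nat.exists_eq_add_of_le (b2 i).1
      have c1 : r ≤ l * n := by
        have := (b2 i).2
        rw [add_mul] at this
        omega
      have c2 := b7 r c1
      rw [← hr] at c2
      have c3 : (Z (t n i) : ℝ) = 2 ^ (-(t n i : ℤ)) * 3 ^ (H α (t n i) : ℤ) * α.den *
          (T^[t n i] α * mu α (t n i) : ℚ) := by
        rw [hZ, mu, zpow_neg, zpow_natCast, zpow_natCast]
        push_cast
        field_simp
      have c4 : 2 * r * exp (-(δ * n)) ≤ exp (-(δ / 2 * n)) := le_trans (by gcongr) b5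
      rw [Int.cast_mul, c3]
      generalize ((∏ y, dn α (a n y) (ρ n y) : ℤ) : ℝ) = Q at *
      generalize ((T^[t n i] α * mu α (t n i) : ℚ) : ℝ) = M1 at *
      generalize ((T^[w * n] α * mu α (w * n) : ℚ) : ℝ) = M0 at *
      have c5 : (0 : ℝ) < 2 ^ (-(t n i : ℤ)) * 3 ^ (H α (t n i) : ℤ) := by positivity
      generalize (2 : ℝ) ^ (-(t n i : ℤ)) * 3 ^ (H α (t n i) : ℤ) = Λ at *
      rw [show Q * (Λ * α.den * M1) - Λ * (Q * α.den * M0) = Λ * (Q * α.den * (M1 - M0)) by ring,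
        abs_mul, abs_of_pos c5, abs_mul _ (M1 - M0), abs_mul _ M0]
      have c6 := c2.trans (mul_le_mul_of_nonneg_right c4 (abs_nonneg _))
      exact (mul_le_mul_of_nonneg_left (mul_le_mul_of_nonneg_left c6 (abs_nonneg _))
        c5.le).trans_eq (by ring)

end Pool.Agent.MP_1e211b_nt.H92
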