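import Mathlib
import Pool.Agent.MP_1e211b_nt.H73.Final
import Pool.Agent.MP_1e211b_nt.H92.Window

set_option autoImplicit false

/-!
A rational whose parity sequence has at most `S m` factors of length `m` for infinitely many `m`
has an eventually periodic orbit.
-/

namespace Pool.Agent.MP_1e211b_nt.H92

open Real Filter Pool.Agent.MP_60c1b5_an.H73 Pool.Agent.MP_1e211b_nt.H60

theorem per_of_eq {α : ℚ} {i j : ℕ} (hij : i ≠ j) (e : T^[i] α = T^[j] α) :
    ∃ N p : ℕ, 0 < p ∧ ∀ n, N ≤ n → T^[n + p] α = T^[n] α ∧ par α (n + p) = par α n := by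
  wlog h : i < j generalizing i j
  · exact this hij.symm e.symm (by omega)
  refine ⟨i, j - i, by omega, fun m hm => ?_⟩
  have : T^[m + (j - i)] α = T^[m] α := by
    rw [show m + (j - i) = m - i + j by omega, Function.iterate_add_apply, ← e,
      ← Function.iterate_add_apply, Nat.sub_add_cancel hm]
  exact ⟨this, by unfold par; rw [this]⟩

theorem grow (α : ℚ) (t r : ℕ) : |T^[t + r] α| + 1 ≤ 2 ^ r * (|T^[t] α| + 1) := by
  induction r with
  | zero => simp
  | succ r ih =>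
    rw [← add_assoc, Function.iterate_succ_apply', pow_succ', mul_assoc]
    refine le_trans ?_ (mul_le_mul_of_nonneg_left ih (by norm_num))
    generalize T^[t + r] α = y
    unfold T
    split_ifs
    · rcases abs_cases y with h | h <;> rcases abs_cases ((3 * y + 1) / 2) with h' | h' <;> linarith
    · rcases abs_cases y with h | h <;> rcases abs_cases (y / 2) with h' | h' <;> linarith

theorem superlinear (α : ℚ) (hα : Odd α.den) (S : ℕ)
    (h : ∃ᶠ m in atTop, (Fac (par α) m).encard ≤ (S * m : ℕ)) :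
    ∃ N p : ℕ, 0 < p ∧ ∀ n, N ≤ n → T^[n + p] α = T^[n] α ∧ par α (n + p) = par α n := by
  by_contra hc
  have hap : Aper (par α) := by
    intro N p hp hN
    obtain ⟨L, hL⟩ := pow_unbounded_of_one_lt (α.den * (|T^[N] α| + |T^[N + p] α|) : ℚ) one_lt_two
    exact hc (per_of_eq (by omega) (H73.eq_of_blocks α hα N (N + p) L (fun k _ => by
      rw [add_right_comm, hN _ (by omega)]) hL))
  obtain ⟨U, hU⟩ := exists_ultrafilter_iff.2 (frequently_iff_neBot.1 h)
  obtain ⟨h1, h2⟩ := le_inf_iff.1 hU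
  have h3 : ∀ᶠ m in (U : Filter ℕ), (Fac (par α) m).Finite ∧ (Fac (par α) m).ncard ≤ S * m := by
    filter_upwards [le_principal_iff.1 h2] with m hm
    have hf := Set.finite_of_encard_le_coe hm
    refine ⟨hf, ?_⟩
    have hm' : (Fac (par α) m).encard ≤ (S * m : ℕ) := hm
    rwa [← hf.cast_ncard_eq, Nat.cast_le] at hm'
  obtain ⟨A, hA⟩ : ∃ A, A = Fintype.card (Option (Fin (2 * S + 1) × Option (Fin 2))) := ⟨_, rfl⟩
  have hA1 : 1 ≤ A := hA ▸ Fintype.card_pos
  obtain ⟨l, hl⟩ : ∃ l, l = (A + 2) * (25 * (A + 2) + 4) := ⟨_, rfl⟩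
  obtain ⟨c, hcc⟩ : ∃ c, c = 2 * (A + 1) * A * (S + 1) := ⟨_, rfl⟩
  have hc1 : S + 1 ≤ c := hcc ▸ Nat.le_mul_of_pos_left _ (by positivity)
  have hc0 : (0 : ℝ) < c := by exact_mod_cast (by omega : 0 < c)
  have hU' : ((U.map (c * ·) : Ultrafilter ℕ) : Filter ℕ) ≤ atTop :=
    tendsto_atTop_mono (fun m => Nat.le_mul_of_pos_left m (by omega)) h1
  have key : ∀ w : ℕ, ∀ᶠ m : ℕ in (U : Filter ℕ), ∃ t, w * (c * m) ≤ t ∧ t ≤ (w + l) * (c * m) ∧
      |((T^[t] α : ℚ) : ℝ)| < exp (1 / (8 * c) * (c * m : ℕ)) := fun w =>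
    window hα hU' (κ := Option (Fin (2 * S + 1) × Option (Fin 2)))
      (2 * (4 * ((w + l) * c) * (2 * S + 1)) + 2) w l (hA ▸ hl) (by
        rw [Ultrafilter.coe_map, eventually_map]
        filter_upwards [h3, h1 (eventually_ge_atTop 2)] with m b1 b2
        obtain ⟨a, ρ, b3, b4⟩ := rauzy (par_le_one α) hap S m b2 b1.1 b1.2
        refine ⟨a, ρ, fun x => ⟨(b3 x).1, ?_⟩, fun s hs => ?_⟩
        · rw [← hA, hcc, mul_assoc _ (S + 1)]
          exact Nat.mul_le_mul_left _ (b3 x).2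
        · obtain ⟨t, c1, c2, c3⟩ := b4 ((w + l) * c) s (by rwa [mul_assoc])
          exact ⟨t, c1, c2.trans (Nat.add_le_add_left (Nat.mul_le_mul_right m hc1) s), c3⟩)
      (1 / (8 * c)) (by positivity)
  obtain ⟨μ0, hμ0⟩ := pow_unbounded_of_one_lt (α.den * 8 : ℚ) one_lt_two
  obtain ⟨m, a1, a2, a3⟩ := (h3.and ((eventually_all.2 fun w : Fin (8 * S + 8) =>
    key (w * (l + 1))).and (h1 (eventually_ge_atTop (4 * μ0 + 6))))).exists
  have a4 : 4 * μ0 + 6 ≤ m := a3
  choose t b1 b2 b3 using a2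
  obtain ⟨μ, hμ, hμ'⟩ : ∃ μ, 4 * μ ≤ m ∧ m ≤ 4 * μ + 3 := ⟨m / 4, by omega, by omega⟩
  have b4 : ∀ w, ∀ r < μ, |T^[t w + r] α| ≤ 2 ^ (2 * μ + 2) := by
    intro w r hr
    have c1 : |((T^[t w] α : ℚ) : ℝ)| ≤ 2 ^ (μ + 1) := by
      refine (b3 w).le.trans ?_
      have d1 : exp (1 / 2) ≤ 2 := by
        have := exp_one_lt_d9
        have d2 : exp (1 / 2) * exp (1 / 2) = exp 1 := by rw [← exp_add]; norm_num
        nlinarith [exp_pos (1 / 2)]
      refine le_trans (exp_le_exp.2 ?_) ((exp_nat_mul _ _).le.trans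
        (pow_le_pow_left₀ (exp_pos _).le d1 _))
      have d3 : (m : ℝ) ≤ 4 * μ + 3 := by exact_mod_cast hμ'
      push_cast
      field_simp
      linarith
    have c2 : |T^[t w] α| ≤ 2 ^ (μ + 1) := by exact_mod_cast c1
    have c3 := grow α (t w) r
    have c4 : (2 : ℚ) ^ r ≤ 2 ^ μ := pow_le_pow_right₀ (by norm_num) hr.le
    have c5 : (1 : ℚ) ≤ 2 ^ (μ + 1) := one_le_pow₀ (by norm_num)
    calc |T^[t w + r] α| ≤ 2 ^ r * (|T^[t w] α| + 1) := by linarith
      _ ≤ 2 ^ μ * (2 ^ (μ + 1) + 2 ^ (μ + 1)) := by gcongr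
      _ = _ := by ring
  obtain ⟨⟨w, r⟩, -, ⟨w', r'⟩, -, hne, e⟩ := exists_rep a1.1 a1.2
    (Finset.univ : Finset (Fin (8 * S + 8) × Fin μ)) (by
      simp only [Finset.card_univ, Fintype.card_prod, Fintype.card_fin]
      have : S * m ≤ S * (4 * μ + 3) := Nat.mul_le_mul_left S hμ'
      have : 1 ≤ μ := by omega
      nlinarith) fun x => t x.1 + x.2
  have b5 : ∀ w w' : Fin (8 * S + 8), w < w' → ∀ r < μ, t w + r < t w' := by
    intro w w' hw r hr
    have c1 := b2 w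
    have c2 := b1 w'
    have c3 : (w * (l + 1) + l + 1) * (c * m) ≤ w' * (l + 1) * (c * m) :=
      Nat.mul_le_mul_right _ (by
        have := Nat.mul_le_mul_right (l + 1) (show (w : ℕ) + 1 ≤ w' from hw)
        rw [add_mul] at this
        omega)
    have c4 : m ≤ c * m := Nat.le_mul_of_pos_left m (by omega)
    rw [add_mul _ 1] at c3
    omega
  refine hc (per_of_eq (i := t w + r) (j := t w' + r') (fun e' => ?_)
    (H73.eq_of_blocks α hα _ _ m e ?_))
  · rcases lt_trichotomy w w' with c | rfl | c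
    · have := b5 _ _ c r r.2
      omega
    · exact hne (by rw [Fin.ext (add_left_cancel e')])
    · have := b5 _ _ c r' r'.2
      omega
  · have c1 := b4 w r r.2
    have c2 := b4 w' r' r'.2
    calc (α.den : ℚ) * (|T^[t w + r] α| + |T^[t w' + r'] α|)
        ≤ α.den * (2 ^ (2 * μ + 2) + 2 ^ (2 * μ + 2)) := by gcongr
      _ = α.den * 8 * 2 ^ (2 * μ) := by ring
      _ < 2 ^ μ0 * 2 ^ (2 * μ) := by gcongr
      _ ≤ 2 ^ m := by
        rw [← pow_add]
        exact pow_le_pow_right₀ (by norm_num) (by omega)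

end Pool.Agent.MP_1e211b_nt.H92
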